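import Pool.Agent.Helper49.Mal.Final

/-!
# A derivation of `D^∞` which is not the sum of a vector field and an operator `div A grad`

Let `H = L²([0,1]; ℝⁿ)` be the Cameron-Martin space of the `n`-dimensional Wiener space and let
`W` be the isonormal Gaussian process over `H` (on the classical Wiener space: the Wiener
integral). The half swap `A₀` of `H`, `(A₀ h)(t) = h(t + 1/2)` for `t < 1/2` and
`-h(t - 1/2)` for `t ≥ 1/2`, is antisymmetric and isometric. The operator `div A₀ grad`, i.e. the
derivation with `W h ↦ W (A₀ h)`, is a `D^∞`-derivation. It is not of the form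
`⟪grad f, X⟫ + div (A grad f)` with a square integrable field `X` and a process `A` of
antisymmetric matrices.

The continuity on `D^∞` rests on the identity
`(2m)! |δF|^(2m) = ∑ c(r,s,t) |F|^(2s) ⟪F^(⊗r), δ^(2m)(|F|^(2t) F^(⊗r))⟫` for a derivation `δ`, which
reduces `L^(2m)` bounds to `L²` bounds of the iterates of `δ`.
-/

open MeasureTheory ProbabilityTheory

namespace Pool.Agent.Results.MP_4215b8_pr.SwapDerivation

open Pool.Agent.Helper49.Mal

/-- For every `n ≥ 1` and every isonormal Gaussian process over the Cameron-Martin space of the
`n`-dimensional Wiener space there is a `D^∞`-derivation which has no decomposition as a vector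
field plus an operator `div A grad`. -/
theorem result {n : ℕ} (hn : 0 < n) {Ω : Type*} [MeasurableSpace Ω] {P : Measure Ω}
    [IsProbabilityMeasure P] (W : Isonormal (CM n) P) :
    ∃ δ : Dinf W →ₗ[ℝ] Dinf W, IsDinfDerivation δ ∧ ¬ HasDecomposition δ :=
  ⟨delta (isJ_swapCM n), isDinfDerivation_delta (isJ_swapCM n), no_decomposition hn W⟩

end Pool.Agent.Results.MP_4215b8_pr.SwapDerivation
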